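import Pool.Agent.N162.HN.Stm

/-! HN/PSI (helper263 for helper162): automorphisms of the function field of a curve. -/

set_option autoImplicit false

open FF Pool.Agent.W603.LV Pool.Agent.Y184.NT Pool.Agent.N162.BC IntermediateField MvPolynomial

namespace Pool.Agent.N263.HN.PSI

open Pool.Agent.N162.HN

/-- two homomorphisms with the same kernel whose images generate the field differ by an
automorphism -/
theorem exists_aut {R E : Type} [CommRing R] [Field E] (g ψ : R →+* E)
    (hk : ∀ P, g P = 0 ↔ ψ P = 0) (hg : ∀ e : E, ∃ P Q, e = g P / g Q)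
    (hψ : ∀ e : E, ∃ P Q, e = ψ P / ψ Q) : ∃ Ψ : E ≃+* E, ∀ P, Ψ (g P) = ψ P := by
  let A := R ⧸ RingHom.ker g
  let gA : A →+* E := RingHom.kerLift g
  let ψA : A →+* E := Ideal.Quotient.lift (RingHom.ker g) ψ (fun P hP => (hk P).1 hP)
  have hgA : Function.Injective gA := RingHom.kerLift_injective g
  have hψA : Function.Injective ψA := by
    rw [injective_iff_map_eq_zero]
    intro a ha
    obtain ⟨P, rfl⟩ := Ideal.Quotient.mk_surjective a
    have h1 : ψ P = 0 := ha
    exact Ideal.Quotient.eq_zero_iff_mem.2 ((hk P).2 h1)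
  let _ : Algebra A E := gA.toAlgebra
  have : FaithfulSMul A E := (faithfulSMul_iff_algebraMap_injective A E).2 hgA
  have : IsDomain A := hgA.isDomain gA
  have : IsFractionRing A E := IsFractionRing.of_field A E (fun z => by
    obtain ⟨P, Q, h⟩ := hg z
    exact ⟨Ideal.Quotient.mk _ P, Ideal.Quotient.mk _ Q, h⟩)
  let Ψ : E →+* E := IsFractionRing.lift (A := A) (K := E) hψA
  have hΨ : ∀ P, Ψ (g P) = ψ P := by
    intro P
    exact IsFractionRing.lift_algebraMap (A := A) (K := E) hψA (Ideal.Quotient.mk _ P)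
  refine ⟨RingEquiv.ofBijective Ψ ⟨Ψ.injective, ?_⟩, hΨ⟩
  intro e
  obtain ⟨P, Q, h⟩ := hψ e
  refine ⟨g P / g Q, ?_⟩
  rw [map_div₀, hΨ, hΨ, h]

theorem psi_ : Pool.Agent.N162.HN.StPSI := by
  intro n Ω _ _ _ C τ hτ
  have hgen : ∀ e : C.E, ∃ P Q : MvPolynomial (Fin (n + 2)) Ω, e = aeval C.X P / aeval C.X Q := by
    intro e
    have h1 : e ∈ IntermediateField.adjoin Ω (Set.range C.X) := by
      rw [C.good.gen]
      trivial
    exact (IntermediateField.mem_adjoin_range_iff Ω C.X e).1 h1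
  have hmap : ∀ P : MvPolynomial (Fin (n + 2)) Ω,
      map (τ : Ω →+* Ω) (map (τ.symm : Ω →+* Ω) P) = P := by
    intro P
    rw [MvPolynomial.map_map]
    have h1 : (τ : Ω →+* Ω).comp (τ.symm : Ω →+* Ω) = RingHom.id Ω := by
      ext a
      simp
    rw [h1, MvPolynomial.map_id]
  obtain ⟨Ψ, hΨ⟩ := exists_aut ((aeval C.X : MvPolynomial (Fin (n + 2)) Ω →ₐ[Ω] C.E) : _ →+* C.E)
    (((aeval C.X : MvPolynomial (Fin (n + 2)) Ω →ₐ[Ω] C.E) : _ →+* C.E).comp (map (τ : Ω →+* Ω)))
    (fun P => hτ P) (fun e => hgen e) (fun e => by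
      obtain ⟨P, Q, h⟩ := hgen e
      refine ⟨map (τ.symm : Ω →+* Ω) P, map (τ.symm : Ω →+* Ω) Q, ?_⟩
      rw [RingHom.comp_apply, RingHom.comp_apply, hmap, hmap]
      exact h)
  have hΨa : ∀ a, Ψ (algebraMap Ω C.E a) = algebraMap Ω C.E (τ a) := by
    intro a
    have h1 := hΨ (MvPolynomial.C a)
    simpa using h1
  have hΨX : ∀ j, Ψ (C.X j) = C.X j := by
    intro j
    have h1 := hΨ (X j)
    simpa using h1
  refine ⟨Ψ, hΨa, hΨX, fun v => ?_⟩
  refine ⟨{ ord := fun f => v.ord (Ψ.symm f)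
            ord_zero := by rw [map_zero]; exact v.ord_zero
            ord_mul := ?_
            ord_add := ?_
            ord_const := ?_
            surj := ?_ }, ?_⟩
  · intro f g hf hg
    rw [map_mul]
    exact v.ord_mul (by simpa using hf) (by simpa using hg)
  · intro f g hf hg hfg
    rw [map_add]
    refine v.ord_add (by simpa using hf) (by simpa using hg) ?_
    rw [← map_add]
    intro h0
    exact hfg ((map_eq_zero_iff Ψ.symm Ψ.symm.injective).1 h0)
  · intro c hc
    have h1 : Ψ.symm (algebraMap Ω C.E c) = algebraMap Ω C.E (τ.symm c) := by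
      rw [RingEquiv.symm_apply_eq, hΨa, RingEquiv.apply_symm_apply]
    rw [h1]
    exact v.ord_const (by simpa using hc)
  · obtain ⟨t, ht, ht1⟩ := v.surj
    exact ⟨Ψ t, by simpa using ht, by rw [RingEquiv.symm_apply_apply]; exact ht1⟩
  · intro f _
    show v.ord (Ψ.symm (Ψ f)) = v.ord f
    rw [RingEquiv.symm_apply_apply]

end Pool.Agent.N263.HN.PSI
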